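import Pool.Agent.P.MP_46a8f8_ag.GU.Fin6

namespace Pool.Agent.Results.MP_46a8f8_ag.ClassicalQuotients

open Pool.Agent.P.MP_46a8f8_ag.GU

universe u

/-- Grothendieck-Serre for the quotients `SU(A,σ) / μ_m` of the group of unitary elements of
reduced norm one of an Azumaya algebra with involution, over a local ring `R` which is essentially
smooth over a regular local ring of dimension at most two, `2` being a unit. -/
theorem result (B R : Type u) [CommRing B] [IsRegularLocalRing B] (hB : ringKrullDim B ≤ 2)
    [CommRing R] [IsLocalRing R] [Algebra B R] [IsLocalHom (algebraMap B R)]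
    [Algebra.FormallySmooth B R] [Algebra.EssFiniteType B R] (h2 : IsUnit (2 : R))
    (S : Type u) [CommRing S] [Algebra R S] [Module.Finite R S] [Algebra.Etale R S]
    (A : Type u) [Ring A] [Algebra S A] [IsAzumaya S A] [Algebra R A] [IsScalarTower R S A]
    (σ : A →ₗ[R] A) (hσ : IsInvol σ)
    (hfix : ∀ s : S, σ (algebraMap S A s) = algebraMap S A s → ∃ r, algebraMap R S r = s)
    (m : ℕ) (K : Type u) [Field K] [Algebra R K] [IsFractionRing R K]
    (O : Type u) [CommRing O] [Algebra R O] (hO : IsQTorsor (SpecU S σ) O (Mu R A m))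
    (hK : Nonempty (O →ₐ[R] K)) :
    Nonempty (O →ₐ[R] R) :=
  topQ B R K O allTq allAq hB h2 S A σ hσ hfix hO hK

end Pool.Agent.Results.MP_46a8f8_ag.ClassicalQuotients
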