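import Pool.Agent.P.MP_46a8f8_ag.BU.Top

namespace Pool.Agent.Results.MP_46a8f8_ag.SL1Tower

open Pool.Agent.P.MP_46a8f8_ag TensorProduct

universe u

/-- Grothendieck-Serre for `SL₁(A)` over the top `R` of a finite tower of modifications of a local
ring `S` that is essentially smooth over a regular local ring of dimension at most three, for an
Azumaya algebra `A` over `S`. The empty tower gives `S` itself. -/
theorem result (B S : Type u) [CommRing B] [IsRegularLocalRing B] (hB : ringKrullDim B ≤ 3)
    [CommRing S] [IsLocalRing S] [Algebra B S] [IsLocalHom (algebraMap B S)]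
    [Algebra.FormallySmooth B S] [Algebra.EssFiniteType B S]
    (A : Type u) [Ring A] [Algebra S A] [IsAzumaya S A]
    (K : Type u) [Field K] [Algebra S K] [IsFractionRing S K]
    (R : Subalgebra S K) (hR : Relation.ReflTransGen Modif ⊥ R)
    (O : Type u) [CommRing O] [Algebra R O] (hO : IsTorsor R (R ⊗[S] A) O)
    (hK : Nonempty (O →ₐ[R] K)) : Nonempty (O →ₐ[R] R) :=
  hO.nonempty.elim fun T => BU.main B S hB A K R hR O T hK

end Pool.Agent.Results.MP_46a8f8_ag.SL1Tower
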