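import Pool.Agent.P.MP_46a8f8_ag.GU.Fin5

namespace Pool.Agent.Results.MP_46a8f8_ag.SpinSmooth

open Pool.Agent.P.MP_46a8f8_ag.GU

universe u

/-- Grothendieck-Serre for the spin group `Spin(Q)` of a nondegenerate quadratic form of rank at
least three over a local ring `R` which is essentially smooth over a regular local ring of
dimension at most two, `2` being a unit. -/
theorem result (B R : Type u) [CommRing B] [IsRegularLocalRing B] (hB : ringKrullDim B ≤ 2)
    [CommRing R] [IsLocalRing R] [Algebra B R] [IsLocalHom (algebraMap B R)]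
    [Algebra.FormallySmooth B R] [Algebra.EssFiniteType B R] (h2 : IsUnit (2 : R))
    (V : Type u) [AddCommGroup V] [Module R V] [Module.Free R V] [Module.Finite R V]
    (Q : QuadraticForm R V) (hQ : Function.Bijective Q.polarBilin) (h3 : 3 ≤ Module.finrank R V)
    (K : Type u) [Field K] [Algebra R K] [IsFractionRing R K]
    (O : Type u) [CommRing O] [Algebra R O] (hO : IsGTorsor (SpinF Q) O)
    (hK : Nonempty (O →ₐ[R] K)) :
    Nonempty (O →ₐ[R] R) :=
  topSp allSn allCl B R hB h2 V Q hQ h3 K O hO hK

end Pool.Agent.Results.MP_46a8f8_ag.SpinSmooth
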