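import Pool.Agent.P.MP_46a8f8_ag.GU.Fin2

namespace Pool.Agent.Results.MP_46a8f8_ag.UnitarySmooth

open Pool.Agent.P.MP_46a8f8_ag.GU

universe u

/-- Grothendieck-Serre for the neutral component `U⁰(A,σ)` of the unitary group of an Azumaya
algebra with involution over a local ring `R` which is essentially smooth over a regular local
ring of dimension at most three, `2` being a unit and one dimensional domains essentially of
finite type over `R` having finite normalisation. -/
theorem result (B R : Type u) [CommRing B] [IsRegularLocalRing B] (hB : ringKrullDim B ≤ 3)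
    [CommRing R] [IsLocalRing R] [Algebra B R] [IsLocalHom (algebraMap B R)]
    [Algebra.FormallySmooth B R] [Algebra.EssFiniteType B R] (h2 : IsUnit (2 : R))
    (hN : ∀ (D : Type u) [CommRing D] [IsDomain D] [Algebra R D] [Algebra.EssFiniteType R D],
      ringKrullDim D = 1 → FinNorm D)
    (S : Type u) [CommRing S] [IsDomain S] [Algebra R S] [Module.Finite R S] [Algebra.Etale R S]
    (A : Type u) [Ring A] [Algebra S A] [IsAzumaya S A] [Algebra R A] [IsScalarTower R S A]
    (σ : A →ₗ[R] A) (hσ : IsInvol σ)
    (hfix : ∀ s : S, σ (algebraMap S A s) = algebraMap S A s → ∃ r, algebraMap R S r = s)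
    (K : Type u) [Field K] [Algebra R K] [IsFractionRing R K]
    (O : Type u) [CommRing O] [Algebra R O] (hO : IsZTorsor σ O) (hK : Nonempty (O →ₐ[R] K)) :
    Nonempty (O →ₐ[R] R) :=
  topZ allSep allTr allRk (pGA0 pAzS pFreeS) pAzR (pAdjO allImp pNSt) (pAdjU pAzS) pTor0 B R h2
    (fun A _ _ _ _ h => allSmooth B R hB hN A h) S A σ hσ hfix K O hO hK

end Pool.Agent.Results.MP_46a8f8_ag.UnitarySmooth
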